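import Pool.Agent.Q213.PRg

/-!
# A uniform exponent for the `p`-root closure of the polarizations of modular invariants

`V` is a finite-dimensional representation of the finite group `G` over the field `k` of
characteristic `p > 0`, with a basis `b` indexed by `ι`. The ring `k[V]` of polynomial functions on
`V` is `MvPolynomial ι k`, the variable `X i` being the coordinate function of index `i`; the ring
`k[V^n]` is `MvPolynomial (Fin n × ι) k`, the variable `X (l, i)` being the coordinate function of
index `i` of the vector `v_l`.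
-/

namespace Pool.Agent.Results.MP_d2bd57_al.UniformRoot

open MvPolynomial

variable {k G V ι : Type*} [Field k] [Group G] [AddCommGroup V] [Module k V] [Fintype ι]

/-- The substitution `f(v) ↦ f(g v)` on polynomial functions on `V`. -/
noncomputable def act (ρ : Representation k G V) (b : Module.Basis ι k V) (g : G) :
    MvPolynomial ι k →ₐ[k] MvPolynomial ι k :=
  aeval (fun i => ∑ j, C (b.repr (ρ g (b j)) i) * X j)

/-- The substitution `f(v_1, …, v_n) ↦ f(g v_1, …, g v_n)` on polynomial functions on `V^n`. -/
noncomputable def actPow (ρ : Representation k G V) (b : Module.Basis ι k V) (n : ℕ) (g : G) :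
    MvPolynomial (Fin n × ι) k →ₐ[k] MvPolynomial (Fin n × ι) k :=
  aeval (fun q => ∑ j, C (b.repr (ρ g (b j)) q.2) * X (q.1, j))

/-- The polynomial `f(t_1 v_1 + ⋯ + t_n v_n)` in the indeterminates `t_1, …, t_n`; its coefficients
are the polarizations of `f`. -/
noncomputable def polar (n : ℕ) (f : MvPolynomial ι k) :
    MvPolynomial (Fin n) (MvPolynomial (Fin n × ι) k) :=
  aeval (fun i => ∑ l, X l * C (X (l, i))) f

/-- There is one exponent `d` such that for all `n ≥ 1` the power `F ^ (p ^ d)` of every invariant
polynomial function on `V^n` lies in the algebra generated by the polarizations of the elements of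
any generating set of `k[V]^G`. -/
theorem result (p : ℕ) [Fact p.Prime] [CharP k p] [Finite G] (ρ : Representation k G V)
    (b : Module.Basis ι k V) :
    ∃ d : ℕ, ∀ s : Set (MvPolynomial ι k),
      (∀ f, f ∈ Algebra.adjoin k s ↔ ∀ g : G, act ρ b g f = f) →
      ∀ n ≥ 1, ∀ F : MvPolynomial (Fin n × ι) k, (∀ g : G, actPow ρ b n g F = F) →
        F ^ p ^ d ∈ Algebra.adjoin k
          {h | ∃ f ∈ s, ∃ β : Fin n →₀ ℕ, h = coeff β (polar n f)} := by
  classical
  let M : G →* Matrix ι ι k := (LinearMap.toMatrixAlgEquiv b).toMonoidHom.comp ρ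
  have hM : ∀ g i j, M g i j = b.repr (ρ g (b j)) i := fun g i j =>
    LinearMap.toMatrixAlgEquiv_apply b (ρ g) i j
  have h1 : ∀ g : G, Q213.PR.s1 M g = act ρ b g := fun g => by
    simp only [Q213.PR.s1, act, hM]
  have hL : ∀ (n : ℕ) (g : G), Q213.PR.sL M (Fin n) g = actPow ρ b n g := fun n g => by
    simp only [Q213.PR.sL, actPow, hM]
  obtain ⟨d, hd⟩ := Q213.PR.main M p
  refine ⟨d, ?_⟩
  intro s hs n hn F hF
  have : Nonempty (Fin n) := ⟨⟨0, hn⟩⟩
  have h2 : F ^ p ^ d ∈ Q213.PR.PP M (Fin n) := by
    refine hd (Fin n) F ?_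
    intro g
    rw [hL]
    exact hF g
  refine (Algebra.adjoin_le ?_ : Q213.PR.PP M (Fin n) ≤ _) h2
  rintro h ⟨f, hf, β, rfl⟩
  have hfs : f ∈ Algebra.adjoin k s := by
    rw [hs]
    intro g
    rw [← h1]
    exact hf g
  clear hf
  change coeff β (polar n f) ∈ _
  induction hfs using Algebra.adjoin_induction generalizing β with
  | mem f hf => exact Algebra.subset_adjoin ⟨f, hf, β, rfl⟩
  | algebraMap r =>
    have : polar n (algebraMap k (MvPolynomial ι k) r) = C (C r) := by
      rw [polar, AlgHom.commutes, MvPolynomial.algebraMap_apply]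
      rfl
    rw [this, coeff_C]
    split_ifs
    · exact Subalgebra.algebraMap_mem _ r
    · exact Subalgebra.zero_mem _
  | add f g _ _ hf hg =>
    have : polar n (f + g) = polar n f + polar n g := by
      rw [polar, map_add]
      rfl
    rw [this, coeff_add]
    exact Subalgebra.add_mem _ (hf β) (hg β)
  | mul f g _ _ hf hg =>
    have : polar n (f * g) = polar n f * polar n g := by
      rw [polar, map_mul]
      rfl
    rw [this, coeff_mul]
    exact Subalgebra.sum_mem _ fun x _ => Subalgebra.mul_mem _ (hf x.1) (hg x.2)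

end Pool.Agent.Results.MP_d2bd57_al.UniformRoot
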